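import Pool.Agent.W78.EC.Defs2

/-!
# EC-B6: multiplicity of the pairs `(D, c)`, number of points in a cone and on a line
-/

set_option autoImplicit false

namespace Pool.Agent.W395.EC

open Finset
open Pool.Agent.W78.GA Pool.Agent.W78.EC

lemma hD : (0 : ℤ) ^ 2 < 4 * 1 := by norm_num

lemma nmZ (z : Gi) : (nm z : ℤ) = z.re ^ 2 + z.im ^ 2 := by
  rw [nm_cast hD]; ring

lemma nmR (z : Gi) : (nm z : ℝ) = (z.re : ℝ) ^ 2 + (z.im : ℝ) ^ 2 := by
  have := nmZ z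
  exact_mod_cast this

/-- what is used of a good edge -/
structure GE (κ Y : ℝ) (a b : Gi) : Prop where
  det : dt a b = 1
  la : κ * Y < (nm a : ℝ)
  lb : κ * Y < (nm b : ℝ)
  ip : 0 ≤ a.re * b.re + a.im * b.im

lemma ge_of_good {K : ℕ} {κ : ℝ} {Q : ℕ} {X : ℝ} {e : Gi × Gi} (he : e ∈ good K κ Q X) :
    GE κ (X / (K * Q)) e.1 e.2 := by
  obtain ⟨a, b⟩ := e
  unfold good edge at he
  rw [mem_filter, mem_filter, mem_product, mem_pball hD, mem_pball hD] at he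
  obtain ⟨⟨⟨⟨-, ha⟩, ⟨-, hb⟩⟩, hd, hab⟩, hka, hkb⟩ := he
  refine ⟨hd, hka, hkb, ?_⟩
  simp only at ha hb hd hab hka hkb ⊢
  by_contra hneg
  push Not at hneg
  have hm : a.re * b.re + a.im * b.im ≤ -1 := by omega
  have hmR : ((a.re : ℝ) * b.re + (a.im : ℝ) * b.im) ≤ -1 := by exact_mod_cast hm
  have h1 := nmR a
  have h2 := nmR b
  have h3 := nmR (a + b)
  rw [QuadraticAlgebra.re_add, QuadraticAlgebra.im_add] at h3
  push_cast at h3
  have hdR : (a.re : ℝ) * b.im - (a.im : ℝ) * b.re = 1 := by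
    unfold dt at hd
    exact_mod_cast hd
  set m : ℝ := (a.re : ℝ) * b.re + (a.im : ℝ) * b.im with hmdef
  have h4 : (nm (a + b) : ℝ) = nm a + nm b + 2 * m := by
    rw [h3, h1, h2, hmdef]; ring
  have h5 : (nm a : ℝ) * nm b = m ^ 2 + 1 := by
    rw [h1, h2, hmdef]
    linear_combination (((a.re : ℝ) * b.im - (a.im : ℝ) * b.re) + 1) * hdR
  have h6 : -2 * m < nm b := by linarith
  have h7 : -2 * m < nm a := by linarith
  have h8 : (-2 * m) * (-2 * m) < (nm a : ℝ) * nm b :=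
    mul_lt_mul'' h7 h6 (by linarith) (by linarith)
  nlinarith

lemma coord_re {a b z : Gi} (h : dt a b = 1) : z.re = dt z b * a.re + dt a z * b.re := by
  unfold dt at *
  linear_combination (-z.re) * h

lemma coord_im {a b z : Gi} (h : dt a b = 1) : z.im = dt z b * a.im + dt a z * b.im := by
  unfold dt at *
  linear_combination (-z.im) * h

lemma nm_coord {a b z : Gi} (h : dt a b = 1) : (nm z : ℝ) =
    (dt z b : ℝ) ^ 2 * nm a + (dt a z : ℝ) ^ 2 * nm b +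
      2 * (dt z b : ℝ) * (dt a z : ℝ) * ((a.re : ℝ) * b.re + (a.im : ℝ) * b.im) := by
  have h1 : (z.re : ℝ) = dt z b * a.re + dt a z * b.re := by exact_mod_cast coord_re h
  have h2 : (z.im : ℝ) = dt z b * a.im + dt a z * b.im := by exact_mod_cast coord_im h
  rw [nmR, nmR, nmR, h1, h2]
  ring

lemma mem_cone {X : ℝ} {a b z : Gi} :
    z ∈ cone X a b ↔ (prim z ∧ (nm z : ℝ) ≤ X) ∧ 0 < dt a z ∧ 0 < dt z b := by
  unfold cone
  rw [mem_filter, mem_pball hD]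

lemma cone_bd {K : ℕ} {κ : ℝ} {Q : ℕ} {X : ℝ} (hK : 1 ≤ K) (hκ : 0 < κ) (hQ : 1 ≤ Q)
    (hX : 2 * (K * Q : ℝ) ≤ X) {a b z : Gi} (hG : GE κ (X / (K * Q)) a b)
    (hz : z ∈ cone X a b) :
    (dt z b : ℝ) ^ 2 ≤ K * Q / κ ∧ (dt a z : ℝ) ^ 2 ≤ K * Q / κ := by
  obtain ⟨⟨-, hn⟩, h1, h2⟩ := mem_cone.1 hz
  have hKQ : (0 : ℝ) < K * Q := by
    have : (1 : ℝ) ≤ K := by exact_mod_cast hK
    have : (1 : ℝ) ≤ Q := by exact_mod_cast hQ
    positivity
  have hX0 : 0 < X := by linarith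
  set Z : ℝ := X / (K * Q) with hZ
  have hZ0 : 0 < Z := by positivity
  have hXZ : X = (K * Q) * Z := by
    rw [hZ]; field_simp
  have h1R : (0 : ℝ) < dt a z := by exact_mod_cast h1
  have h2R : (0 : ℝ) < dt z b := by exact_mod_cast h2
  have hip : (0 : ℝ) ≤ (a.re : ℝ) * b.re + (a.im : ℝ) * b.im := by exact_mod_cast hG.ip
  have hnm := nm_coord (z := z) hG.det
  have hc : 0 ≤ 2 * (dt z b : ℝ) * (dt a z : ℝ) * ((a.re : ℝ) * b.re + (a.im : ℝ) * b.im) := by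
    positivity
  have ha : (dt z b : ℝ) ^ 2 * (κ * Z) ≤ (dt z b : ℝ) ^ 2 * nm a :=
    mul_le_mul_of_nonneg_left hG.la.le (by positivity)
  have hb : (dt a z : ℝ) ^ 2 * (κ * Z) ≤ (dt a z : ℝ) ^ 2 * nm b :=
    mul_le_mul_of_nonneg_left hG.lb.le (by positivity)
  have ha0 : 0 ≤ (dt z b : ℝ) ^ 2 * nm a := by positivity
  have hb0 : 0 ≤ (dt a z : ℝ) ^ 2 * nm b := by positivity
  constructor
  · rw [le_div_iff₀ hκ]
    refine le_of_mul_le_mul_right ?_ hZ0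
    calc (dt z b : ℝ) ^ 2 * κ * Z = (dt z b : ℝ) ^ 2 * (κ * Z) := by ring
      _ ≤ X := by linarith
      _ = K * Q * Z := hXZ
  · rw [le_div_iff₀ hκ]
    refine le_of_mul_le_mul_right ?_ hZ0
    calc (dt a z : ℝ) ^ 2 * κ * Z = (dt a z : ℝ) ^ 2 * (κ * Z) := by ring
      _ ≤ X := by linarith
      _ = K * Q * Z := hXZ

lemma gi_ext {z u : Gi} (h1 : z.re = u.re) (h2 : z.im = u.im) : z = u := QuadraticAlgebra.ext h1 h2

theorem dtb : S_DTB := by
  intro K κ Q X hK hκ hQ hX e he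
  have hG := ge_of_good he
  obtain ⟨a, b⟩ := e
  simp only at hG ⊢
  have hKQ : (0 : ℝ) ≤ K * Q / κ := by positivity
  constructor
  · set R : ℕ := ⌊√(K * Q / κ)⌋₊ with hR
    have hmaps : ∀ z ∈ cone X a b, ((dt z b).toNat, (dt a z).toNat) ∈ Icc 1 R ×ˢ Icc 1 R := by
      intro z hz
      obtain ⟨h3, h4⟩ := cone_bd hK hκ hQ hX hG hz
      obtain ⟨-, h1, h2⟩ := mem_cone.1 hz
      have key : ∀ x : ℤ, 0 < x → (x : ℝ) ^ 2 ≤ K * Q / κ → x.toNat ∈ Icc 1 R := by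
        intro x hx hx2
        rw [mem_Icc]
        refine ⟨by omega, ?_⟩
        rw [hR]
        apply Nat.le_floor
        have h5 : ((x.toNat : ℕ) : ℝ) = (x : ℝ) := by
          have : ((x.toNat : ℕ) : ℤ) = x := Int.toNat_of_nonneg hx.le
          exact_mod_cast this
        rw [h5]
        exact Real.le_sqrt_of_sq_le hx2
      rw [mem_product]
      exact ⟨key _ h2 h3, key _ h1 h4⟩
    have hinj : Set.InjOn (fun z : Gi => ((dt z b).toNat, (dt a z).toNat)) (cone X a b) := by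
      intro z hz u hu h
      obtain ⟨-, h1, h2⟩ := mem_cone.1 hz
      obtain ⟨-, h3, h4⟩ := mem_cone.1 hu
      simp only [Prod.mk.injEq] at h
      have e1 : dt z b = dt u b := by
        have := h.1
        omega
      have e2 : dt a z = dt a u := by
        have := h.2
        omega
      refine gi_ext ?_ ?_
      · rw [coord_re (z := z) hG.det, coord_re (z := u) hG.det, e1, e2]
      · rw [coord_im (z := z) hG.det, coord_im (z := u) hG.det, e1, e2]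
    have hcard := card_le_card_of_injOn _ hmaps hinj
    rw [card_product, Nat.card_Icc, Nat.add_sub_cancel] at hcard
    have h1 : ((cone X a b).card : ℝ) ≤ (R : ℝ) * R := by exact_mod_cast hcard
    have h2 : (R : ℝ) ≤ √(K * Q / κ) := Nat.floor_le (Real.sqrt_nonneg _)
    have h3 : (R : ℝ) * R ≤ √(K * Q / κ) * √(K * Q / κ) :=
      mul_le_mul h2 h2 (Nat.cast_nonneg _) (Real.sqrt_nonneg _)
    rw [Real.mul_self_sqrt hKQ] at h3
    linarith
  · intro v hv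
    obtain ⟨h3, h4⟩ := cone_bd hK hκ hQ hX hG hv
    obtain ⟨-, h1, h2⟩ := mem_cone.1 hv
    have c1 : (((dt v b).toNat : ℕ) : ℤ) = dt v b := Int.toNat_of_nonneg h2.le
    have c2 : (((dt a v).toNat : ℕ) : ℤ) = dt a v := Int.toNat_of_nonneg h1.le
    refine ⟨(dt v b).toNat, (dt a v).toNat, by omega, by omega, ?_, ?_, ?_⟩
    · have : (((dt v b).toNat : ℕ) : ℝ) = (dt v b : ℝ) := by exact_mod_cast c1
      rw [this]
      exact h3
    · have : (((dt a v).toNat : ℕ) : ℝ) = (dt a v : ℝ) := by exact_mod_cast c2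
      rw [this]
      exact h4
    · refine gi_ext ?_ ?_
      · simp only [QuadraticAlgebra.re_add, QuadraticAlgebra.re_mul, QuadraticAlgebra.re_natCast,
          QuadraticAlgebra.im_natCast, c1, c2]
        rw [coord_re (z := v) hG.det]
        ring
      · simp only [QuadraticAlgebra.im_add, QuadraticAlgebra.im_mul, QuadraticAlgebra.re_natCast,
          QuadraticAlgebra.im_natCast, c1, c2]
        rw [coord_im (z := v) hG.det]
        ring

lemma dt_coord {a b z u : Gi} (h : dt a b = 1) :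
    dt z u = dt z b * dt a u - dt a z * dt u b := by
  unfold dt at *
  linear_combination (-(z.re * u.im - z.im * u.re)) * h

open scoped Classical in
theorem mult : S_MULT := by
  intro K κ Q X D c hK hκ hQ hX hD1 e he
  have hG := ge_of_good he
  obtain ⟨a, b⟩ := e
  simp only at hG ⊢
  set S := (cone X a b ×ˢ cone X a b).filter (fun w : Gi × Gi => dt w.1 w.2 = D ∧
    (D : ℤ) ∣ w.2.re - c * w.1.re ∧ (D : ℤ) ∣ w.2.im - c * w.1.im) with hS
  set R2 : ℝ := K * Q / κ with hR2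
  have hR20 : 0 ≤ R2 := by positivity
  have hDpos : (0 : ℤ) < D := by exact_mod_cast hD1
  have hDposR : (0 : ℝ) < D := by exact_mod_cast hD1
  rcases S.eq_empty_or_nonempty with h0 | ⟨⟨w₁, w₂⟩, hw⟩
  · rw [h0, card_empty]
    have : (0 : ℝ) ≤ (4 * R2 / D + 1) ^ 4 := by positivity
    simpa using this
  -- membership
  have hmem : ∀ w : Gi × Gi, w ∈ S ↔ (w.1 ∈ cone X a b ∧ w.2 ∈ cone X a b) ∧ dt w.1 w.2 = D ∧
      (D : ℤ) ∣ w.2.re - c * w.1.re ∧ (D : ℤ) ∣ w.2.im - c * w.1.im := by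
    intro w
    rw [hS, mem_filter, mem_product]
  -- congruences in the coordinates of the edge
  have hcong : ∀ w ∈ S, (D : ℤ) ∣ dt w.2 b - c * dt w.1 b ∧ (D : ℤ) ∣ dt a w.2 - c * dt a w.1 := by
    intro w hw'
    obtain ⟨-, -, h1, h2⟩ := (hmem w).1 hw'
    constructor
    · have : dt w.2 b - c * dt w.1 b = (w.2.re - c * w.1.re) * b.im - (w.2.im - c * w.1.im) * b.re := by
        unfold dt; ring
      rw [this]
      exact dvd_sub (h1.mul_right _) (h2.mul_right _)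
    · have : dt a w.2 - c * dt a w.1 = a.re * (w.2.im - c * w.1.im) - a.im * (w.2.re - c * w.1.re) := by
        unfold dt; ring
      rw [this]
      exact dvd_sub (h2.mul_left _) (h1.mul_left _)
  have hdvd : ∀ x₁ x₂ y₁ y₂ : ℤ, (D : ℤ) ∣ x₂ - c * x₁ → (D : ℤ) ∣ y₂ - c * y₁ →
      (D : ℤ) ∣ x₁ * y₂ - x₂ * y₁ := by
    intro x₁ x₂ y₁ y₂ h1 h2
    have : x₁ * y₂ - x₂ * y₁ = x₁ * (y₂ - c * y₁) - (x₂ - c * x₁) * y₁ := by ring
    rw [this]
    exact dvd_sub (h2.mul_left _) (h1.mul_right _)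
  obtain ⟨⟨hw1, hw2⟩, hwd, -, -⟩ := (hmem (w₁, w₂)).1 hw
  simp only at hw1 hw2 hwd
  obtain ⟨cw1, cw2⟩ := hcong _ hw
  simp only at cw1 cw2
  -- size of the entries
  have hbd : ∀ z ∈ cone X a b, 0 < dt z b ∧ 0 < dt a z ∧ (dt z b : ℝ) ^ 2 ≤ R2 ∧
      (dt a z : ℝ) ^ 2 ≤ R2 := by
    intro z hz
    obtain ⟨-, h1, h2⟩ := mem_cone.1 hz
    obtain ⟨h3, h4⟩ := cone_bd hK hκ hQ hX hG hz
    exact ⟨h2, h1, h3, h4⟩
  have hprod : ∀ x y : ℤ, 0 < x → 0 < y → (x : ℝ) ^ 2 ≤ R2 → (y : ℝ) ^ 2 ≤ R2 →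
      (0 : ℝ) ≤ x * y ∧ (x : ℝ) * y ≤ R2 := by
    intro x y hx hy h1 h2
    have hxR : (0 : ℝ) < x := by exact_mod_cast hx
    have hyR : (0 : ℝ) < y := by exact_mod_cast hy
    exact ⟨by positivity, by nlinarith [sq_nonneg ((x : ℝ) - y)]⟩
  set T : ℕ := ⌊R2 / D⌋₊ with hT
  have hentry : ∀ x₁ x₂ y₁ y₂ : ℤ, (0 < x₁ ∧ (x₁ : ℝ) ^ 2 ≤ R2) → (0 < x₂ ∧ (x₂ : ℝ) ^ 2 ≤ R2) →
      (0 < y₁ ∧ (y₁ : ℝ) ^ 2 ≤ R2) → (0 < y₂ ∧ (y₂ : ℝ) ^ 2 ≤ R2) →
      (x₁ * y₂ - x₂ * y₁) / (D : ℤ) ∈ Icc (-(T : ℤ)) T ∨ ¬ (D : ℤ) ∣ x₁ * y₂ - x₂ * y₁ := by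
    intro x₁ x₂ y₁ y₂ h1 h2 h3 h4
    by_cases hd : (D : ℤ) ∣ x₁ * y₂ - x₂ * y₁
    · left
      obtain ⟨g, hg⟩ := hd
      rw [hg, Int.mul_ediv_cancel_left _ hDpos.ne']
      obtain ⟨p1, p2⟩ := hprod x₁ y₂ h1.1 h4.1 h1.2 h4.2
      obtain ⟨p3, p4⟩ := hprod x₂ y₁ h2.1 h3.1 h2.2 h3.2
      have hgR : (x₁ : ℝ) * y₂ - x₂ * y₁ = D * g := by exact_mod_cast hg
      have habs : |(g : ℝ)| ≤ R2 / D := by
        rw [le_div_iff₀ hDposR]
        have : |(g : ℝ)| * D = |(x₁ : ℝ) * y₂ - x₂ * y₁| := by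
          rw [hgR, abs_mul, abs_of_pos hDposR]; ring
        rw [this, abs_le]
        constructor <;> linarith
      have hn : g.natAbs ≤ T := by
        rw [hT]
        apply Nat.le_floor
        rw [Nat.cast_natAbs, Int.cast_abs]
        exact habs
      rw [mem_Icc]
      omega
    · right
      exact hd
  let φ : Gi × Gi → ℤ × ℤ × ℤ × ℤ := fun w =>
    ((dt w.1 b * dt a w₂ - dt w.2 b * dt a w₁) / (D : ℤ),
     (dt w.1 b * dt w₂ b - dt w.2 b * dt w₁ b) / (D : ℤ),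
     (dt a w.1 * dt a w₂ - dt a w.2 * dt a w₁) / (D : ℤ),
     (dt a w.1 * dt w₂ b - dt a w.2 * dt w₁ b) / (D : ℤ))
  set I := Icc (-(T : ℤ)) T with hI
  have hmaps : ∀ w ∈ S, φ w ∈ I ×ˢ I ×ˢ I ×ˢ I := by
    intro w hw'
    obtain ⟨⟨h1, h2⟩, -, -, -⟩ := (hmem w).1 hw'
    obtain ⟨k1, k2⟩ := hcong w hw'
    obtain ⟨a1, a2, a3, a4⟩ := hbd _ h1
    obtain ⟨b1, b2, b3, b4⟩ := hbd _ h2
    obtain ⟨c1, c2, c3, c4⟩ := hbd _ hw1
    obtain ⟨d1, d2, d3, d4⟩ := hbd _ hw2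
    simp only [mem_product, φ]
    refine ⟨?_, ?_, ?_, ?_⟩
    · exact (hentry _ _ _ _ ⟨a1, a3⟩ ⟨b1, b3⟩ ⟨c2, c4⟩ ⟨d2, d4⟩).resolve_right
        (fun h => h (hdvd _ _ _ _ k1 cw2))
    · exact (hentry _ _ _ _ ⟨a1, a3⟩ ⟨b1, b3⟩ ⟨c1, c3⟩ ⟨d1, d3⟩).resolve_right
        (fun h => h (hdvd _ _ _ _ k1 cw1))
    · exact (hentry _ _ _ _ ⟨a2, a4⟩ ⟨b2, b4⟩ ⟨c2, c4⟩ ⟨d2, d4⟩).resolve_right
        (fun h => h (hdvd _ _ _ _ k2 cw2))
    · exact (hentry _ _ _ _ ⟨a2, a4⟩ ⟨b2, b4⟩ ⟨c1, c3⟩ ⟨d1, d3⟩).resolve_right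
        (fun h => h (hdvd _ _ _ _ k2 cw1))
  have hdet : dt w₁ b * dt a w₂ - dt a w₁ * dt w₂ b = D := by
    rw [← hwd, dt_coord (z := w₁) (u := w₂) hG.det]
  have hinj : Set.InjOn φ S := by
    intro w hw' u hu h
    simp only [φ, Prod.mk.injEq] at h
    obtain ⟨e1, e2, e3, e4⟩ := h
    obtain ⟨k1, k2⟩ := hcong w hw'
    obtain ⟨l1, l2⟩ := hcong u hu
    have q1 := (Int.ediv_left_inj (hdvd _ _ _ _ k1 cw2) (hdvd _ _ _ _ l1 cw2)).1 e1
    have q2 := (Int.ediv_left_inj (hdvd _ _ _ _ k1 cw1) (hdvd _ _ _ _ l1 cw1)).1 e2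
    have q3 := (Int.ediv_left_inj (hdvd _ _ _ _ k2 cw2) (hdvd _ _ _ _ l2 cw2)).1 e3
    have q4 := (Int.ediv_left_inj (hdvd _ _ _ _ k2 cw1) (hdvd _ _ _ _ l2 cw1)).1 e4
    have hD0 : (D : ℤ) ≠ 0 := hDpos.ne'
    have r1 : dt w.1 b = dt u.1 b := by
      apply mul_left_cancel₀ hD0
      rw [← hdet]
      linear_combination (dt w₁ b) * q1 - (dt a w₁) * q2
    have r2 : dt w.2 b = dt u.2 b := by
      apply mul_left_cancel₀ hD0
      rw [← hdet]
      linear_combination (dt w₂ b) * q1 - (dt a w₂) * q2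
    have r3 : dt a w.1 = dt a u.1 := by
      apply mul_left_cancel₀ hD0
      rw [← hdet]
      linear_combination (dt w₁ b) * q3 - (dt a w₁) * q4
    have r4 : dt a w.2 = dt a u.2 := by
      apply mul_left_cancel₀ hD0
      rw [← hdet]
      linear_combination (dt w₂ b) * q3 - (dt a w₂) * q4
    refine Prod.ext (gi_ext ?_ ?_) (gi_ext ?_ ?_)
    · rw [coord_re (z := w.1) hG.det, coord_re (z := u.1) hG.det, r1, r3]
    · rw [coord_im (z := w.1) hG.det, coord_im (z := u.1) hG.det, r1, r3]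
    · rw [coord_re (z := w.2) hG.det, coord_re (z := u.2) hG.det, r2, r4]
    · rw [coord_im (z := w.2) hG.det, coord_im (z := u.2) hG.det, r2, r4]
  have hcard := card_le_card_of_injOn φ hmaps hinj
  have hIc : I.card = 2 * T + 1 := by
    rw [hI, Int.card_Icc]
    omega
  rw [card_product, card_product, card_product, hIc] at hcard
  have h1 : (S.card : ℝ) ≤ (2 * (T : ℝ) + 1) ^ 4 := by
    have : (S.card : ℝ) ≤ ((2 * (T : ℝ) + 1) * ((2 * (T : ℝ) + 1) * ((2 * (T : ℝ) + 1) *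
        (2 * (T : ℝ) + 1)))) := by exact_mod_cast hcard
    refine this.trans (le_of_eq ?_)
    ring
  have h2 : (T : ℝ) ≤ R2 / D := Nat.floor_le (by positivity)
  refine h1.trans (pow_le_pow_left₀ (by positivity) ?_ 4)
  have h3 : 4 * R2 / (D : ℝ) = 4 * (R2 / D) := by ring
  have h4 : 0 ≤ R2 / (D : ℝ) := by positivity
  rw [h3]
  linarith

lemma line {w u : Gi} (hw : prim w) (h : dt w u = 0) : ∃ k : ℤ, u.re = k * w.re ∧ u.im = k * w.im := by
  have h1 : IsCoprime w.re w.im := Int.isCoprime_iff_gcd_eq_one.2 hw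
  obtain ⟨p, q, hpq⟩ := h1
  unfold dt at h
  refine ⟨p * u.re + q * u.im, ?_, ?_⟩
  · linear_combination (-u.re) * hpq + q * (-1) * h
  · linear_combination (-u.im) * hpq + p * h

theorem ln : S_LN := by
  intro s hs
  refine ⟨2 * ⌊16 / s⌋₊ + 1, ?_⟩
  intro X w m hX hw hsw
  set F := (ball 0 1 (4 * X)).filter (fun z : Gi => dt w z = m) with hF
  set T : ℕ := ⌊16 / s⌋₊ with hT
  rcases F.eq_empty_or_nonempty with h0 | ⟨z₀, hz₀⟩
  · rw [h0, card_empty]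
    exact Nat.zero_le _
  have hmem : ∀ z ∈ F, (nm z : ℝ) ≤ 4 * X ∧ dt w z = m := by
    intro z hz
    rw [hF, mem_filter, mem_ball hD] at hz
    exact ⟨hz.1.2, hz.2⟩
  have hsub : F ⊆ (Icc (-(T : ℤ)) T).image
      (fun k => (⟨z₀.re + k * w.re, z₀.im + k * w.im⟩ : Gi)) := by
    intro z hz
    obtain ⟨n0, d0⟩ := hmem z₀ hz₀
    obtain ⟨n1, d1⟩ := hmem z hz
    have hd : dt w (⟨z.re - z₀.re, z.im - z₀.im⟩ : Gi) = 0 := by
      have : dt w (⟨z.re - z₀.re, z.im - z₀.im⟩ : Gi) = dt w z - dt w z₀ := by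
        unfold dt; ring
      rw [this, d0, d1, sub_self]
    obtain ⟨k, hk1, hk2⟩ := line hw hd
    simp only at hk1 hk2
    rw [mem_image]
    refine ⟨k, ?_, ?_⟩
    · have hk1R : (z.re : ℝ) - z₀.re = k * w.re := by exact_mod_cast hk1
      have hk2R : (z.im : ℝ) - z₀.im = k * w.im := by exact_mod_cast hk2
      have e1 := nmR z
      have e2 := nmR z₀
      have e3 := nmR w
      have hle : (k : ℝ) ^ 2 * nm w ≤ 16 * X := by
        have : (k : ℝ) ^ 2 * nm w = ((z.re : ℝ) - z₀.re) ^ 2 + ((z.im : ℝ) - z₀.im) ^ 2 := by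
          rw [hk1R, hk2R, e3]; ring
        rw [this]
        nlinarith [sq_nonneg ((z.re : ℝ) + z₀.re), sq_nonneg ((z.im : ℝ) + z₀.im)]
      have hk2s : (k : ℝ) ^ 2 ≤ 16 / s := by
        rw [le_div_iff₀ hs]
        have h1 : (k : ℝ) ^ 2 * (s * X) ≤ (k : ℝ) ^ 2 * nm w :=
          mul_le_mul_of_nonneg_left hsw.le (sq_nonneg _)
        have hX0 : 0 < X := by linarith
        refine le_of_mul_le_mul_right ?_ hX0
        linarith
      have hkabs : ((k.natAbs : ℕ) : ℝ) ≤ 16 / s := by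
        have h1 : (k.natAbs : ℝ) ≤ (k.natAbs : ℝ) ^ 2 := by
          rcases Nat.eq_zero_or_pos k.natAbs with h | h
          · rw [h]; norm_num
          · have : (1 : ℝ) ≤ k.natAbs := by exact_mod_cast h
            nlinarith
        have h2 : (k.natAbs : ℝ) ^ 2 = (k : ℝ) ^ 2 := by
          rw [Nat.cast_natAbs, Int.cast_abs, sq_abs]
        linarith
      have hn : k.natAbs ≤ T := Nat.le_floor hkabs
      rw [mem_Icc]
      omega
    · refine gi_ext ?_ ?_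
      · show z₀.re + k * w.re = z.re
        linarith
      · show z₀.im + k * w.im = z.im
        linarith
  refine (card_le_card hsub).trans (card_image_le.trans ?_)
  rw [Int.card_Icc]
  omega

end Pool.Agent.W395.EC
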